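import Pool.Agent.Helper64.HG.Stmts

set_option autoImplicit false

namespace Pool.Agent.Helper64.HG

/-- the inputs of the bridge lemma -/
structure br_H : Prop where
  hub : ST_HUB
  cy2 : ST_CY2
  cat : ST_CAT
  cns : ST_CNS
  snc : ST_SNC
  spl : ST_SPL
  rev : ST_REV
  dst : ST_DST

section
variable {V : Type} {G : SimpleGraph V}

/-- path from `u` to `w` with interior `A`, possibly empty -/
def br_Seg (G : SimpleGraph V) (u : V) (A : List V) (w : V) : Prop :=
  (A = [] ∧ G.Adj u w) ∨ (Link G u A w ∧ ¬ G.Adj u w ∧ u ≠ w)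

theorem br_symm {A B : List V} (h : Anti G A B) : Anti G B A := by
  intro b hb a ha
  obtain ⟨h1, h2⟩ := h a ha b hb
  exact ⟨h1.symm, fun h3 => h2 h3.symm⟩

theorem br_revr {A B : List V} (h : Anti G A B) : Anti G A B.reverse :=
  fun a ha b hb => h a ha b (List.mem_reverse.1 hb)

theorem br_revl {A B : List V} (h : Anti G A B) : Anti G A.reverse B :=
  fun a ha b hb => h a (List.mem_reverse.1 ha) b hb

theorem br_nilr (A : List V) : Anti G A [] := fun _ _ _ hb => absurd hb (List.not_mem_nil)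

theorem br_nill (A : List V) : Anti G [] A := fun _ hb => absurd hb (List.not_mem_nil)

theorem br_sub {A B A' B' : List V} (h : Anti G A B) (hA : ∀ x ∈ A', x ∈ A)
    (hB : ∀ x ∈ B', x ∈ B) : Anti G A' B' := fun a ha b hb => h a (hA a ha) b (hB b hb)

theorem br_appl {A A' B : List V} (h : Anti G A B) (h' : Anti G A' B) : Anti G (A ++ A') B := by
  intro a ha b hb
  rcases List.mem_append.1 ha with h1 | h1
  · exact h a h1 b hb
  · exact h' a h1 b hb

theorem br_consl {x : V} {A B : List V} (h : Anti G [x] B) (h' : Anti G A B) :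
    Anti G (x :: A) B := by
  intro a ha b hb
  rcases List.mem_cons.1 ha with h1 | h1
  · exact h a (by rw [h1]; exact List.mem_singleton.2 rfl) b hb
  · exact h' a h1 b hb

theorem br_appr {A B B' : List V} (h : Anti G A B) (h' : Anti G A B') : Anti G A (B ++ B') :=
  br_symm (br_appl (br_symm h) (br_symm h'))

theorem br_consr {x : V} {A B : List V} (h : Anti G A [x]) (h' : Anti G A B) :
    Anti G A (x :: B) := br_symm (br_consl (br_symm h) (br_symm h'))

theorem br_sing {x : V} {A : List V} (h : ∀ a ∈ A, x ≠ a ∧ ¬ G.Adj x a) : Anti G [x] A := by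
  intro b hb a ha
  rw [List.mem_singleton.1 hb]
  exact h a ha

theorem br_sing' {x : V} {A : List V} (h : Anti G [x] A) : ∀ a ∈ A, x ≠ a ∧ ¬ G.Adj x a :=
  fun a ha => h x (List.mem_singleton.2 rfl) a ha

theorem br_cat (H : br_H) {u x w : V} {A B : List V} (h1 : br_Seg G u A x) (h2 : br_Seg G x B w)
    (hAB : Anti G A B) (huB : Anti G [u] B) (hwA : Anti G [w] A) : Link G u (A ++ x :: B) w := by
  rcases h1 with ⟨rfl, h1⟩ | ⟨h1, h1', h1''⟩
  · rcases h2 with ⟨rfl, h2⟩ | ⟨h2, h2', h2''⟩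
    · refine ⟨by simp, ⟨by simp, ?_⟩, ?_, ?_, ?_, ?_⟩
      · intro i j hi hj hij
        simp at hi hj
        omega
      · simp only [List.nil_append, List.mem_singleton]
        exact h1.ne
      · simp only [List.nil_append, List.mem_singleton]
        exact h2.ne'
      · intro z hz
        rw [List.nil_append, List.mem_singleton] at hz
        subst hz
        simp [h1]
      · intro z hz
        rw [List.nil_append, List.mem_singleton] at hz
        subst hz
        simp [h2.symm]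
    · exact H.cns V G u x w B h1 h2 huB h2''.symm (fun h => h2' h.symm)
  · rcases h2 with ⟨rfl, h2⟩ | ⟨h2, h2', h2''⟩
    · exact H.snc V G u x w A h1 h2 hwA h1'' h1'
    · exact H.cat V G u x w A B h1 h2 hAB huB hwA h1'' h1' h2''.symm (fun h => h2' h.symm)

theorem br_spl (H : br_H) {u x w : V} {A B : List V} (h : Link G u (A ++ x :: B) w) :
    br_Seg G u A x ∧ br_Seg G x B w ∧ Anti G A B ∧ Anti G [u] B ∧ Anti G [w] A ∧ u ≠ x ∧ w ≠ x := by
  obtain ⟨h1, h2, h3, h4, h5, h6, h7, h8, h9⟩ := H.spl V G u x w A B h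
  refine ⟨?_, ?_, h5, h6, h7, h8, h9⟩
  · by_cases hA : A = []
    · exact Or.inl ⟨hA, h1 hA⟩
    · exact Or.inr ⟨(h2 hA).1, (h2 hA).2, h8⟩
  · by_cases hB : B = []
    · exact Or.inl ⟨hB, h3 hB⟩
    · exact Or.inr ⟨(h4 hB).1, (h4 hB).2, h9.symm⟩

theorem br_srev (H : br_H) {u w : V} {A : List V} (h : br_Seg G u A w) :
    br_Seg G w A.reverse u := by
  rcases h with ⟨rfl, h⟩ | ⟨h, h', h''⟩
  · exact Or.inl ⟨rfl, h.symm⟩
  · exact Or.inr ⟨H.rev V G u w A h, fun h3 => h' h3.symm, h''.symm⟩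

theorem br_slink {u w : V} {A : List V} (h : br_Seg G u A w) (hA : A ≠ []) : Link G u A w := by
  rcases h with ⟨h1, h⟩ | ⟨h, h', h''⟩
  · exact absurd h1 hA
  · exact h

theorem br_snadj {u w : V} {A : List V} (h : br_Seg G u A w) (hA : A ≠ []) : ¬ G.Adj u w := by
  rcases h with ⟨h1, h⟩ | ⟨h, h', h''⟩
  · exact absurd h1 hA
  · exact h'

theorem br_sadj {u w : V} {A : List V} (h : br_Seg G u A w) (hA : A = []) : G.Adj u w := by
  rcases h with ⟨h1, h⟩ | ⟨h, h', h''⟩
  · exact h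
  · exact absurd hA h.1

theorem br_sne {u w : V} {A : List V} (h : br_Seg G u A w) : u ≠ w := by
  rcases h with ⟨h1, h⟩ | ⟨h, h', h''⟩
  · exact h.ne
  · exact h''

/-! ### Construction of a subdivided `K₄` -/

def br_A (A01 A02 A03 A12 A13 A23 : List V) : Fin 4 → Fin 4 → List V :=
  ![![[], A01, A02, A03], ![A01.reverse, [], A12, A13], ![A02.reverse, A12.reverse, [], A23],
    ![A03.reverse, A13.reverse, A23.reverse, []]]

def br_B (A01 A02 A03 A12 A13 A23 : List V) : Fin 6 → List V := ![A01, A02, A03, A12, A13, A23]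

def br_idx : Fin 4 → Fin 4 → Fin 6 := ![![0, 0, 1, 2], ![0, 0, 3, 4], ![1, 3, 0, 5], ![2, 4, 5, 0]]

theorem br_mem (A01 A02 A03 A12 A13 A23 : List V) (i j : Fin 4) (hij : i ≠ j) (x : V) :
    x ∈ br_A A01 A02 A03 A12 A13 A23 i j ↔
      x ∈ br_B A01 A02 A03 A12 A13 A23 (br_idx i j) := by
  fin_cases i <;> fin_cases j <;> first
    | exact absurd rfl hij
    | exact Iff.rfl
    | exact List.mem_reverse

theorem br_idx_inj : ∀ i j k l : Fin 4, i ≠ j → k ≠ l → ¬ (i = k ∧ j = l) → ¬ (i = l ∧ j = k) →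
    br_idx i j ≠ br_idx k l := by decide

def br_has (i j k l : Fin 4) (e : Fin 6) : Bool :=
  (br_idx i j == e) || (br_idx j k == e) || (br_idx k l == e)

def br_ok (i j k l : Fin 4) : Bool :=
  (i == j) || (i == k) || (i == l) || (j == k) || (j == l) || (k == l) ||
    br_has i j k l 0 || br_has i j k l 5 || (br_has i j k l 1 && br_has i j k l 3) ||
      (br_has i j k l 2 && br_has i j k l 4)

theorem br_ok_all : ∀ i j k l : Fin 4, br_ok i j k l = true := by decide

theorem br_idx_path (i j k l : Fin 4) (h1 : i ≠ j) (h2 : i ≠ k) (h3 : i ≠ l) (h4 : j ≠ k)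
    (h5 : j ≠ l) (h6 : k ≠ l) :
    ((br_idx i j = 0 ∨ br_idx j k = 0 ∨ br_idx k l = 0) ∨
      (br_idx i j = 5 ∨ br_idx j k = 5 ∨ br_idx k l = 5) ∨
      ((br_idx i j = 1 ∨ br_idx j k = 1 ∨ br_idx k l = 1) ∧
        (br_idx i j = 3 ∨ br_idx j k = 3 ∨ br_idx k l = 3)) ∨
      ((br_idx i j = 2 ∨ br_idx j k = 2 ∨ br_idx k l = 2) ∧
        (br_idx i j = 4 ∨ br_idx j k = 4 ∨ br_idx k l = 4))) := by
  have h := br_ok_all i j k l
  simp only [br_ok, br_has, Bool.or_eq_true, Bool.and_eq_true, beq_iff_eq] at h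
  tauto

theorem br_mkK (H : br_H) (x0 x1 x2 x3 : V) (A01 A02 A03 A12 A13 A23 : List V)
    (s01 : br_Seg G x0 A01 x1) (s02 : br_Seg G x0 A02 x2) (s03 : br_Seg G x0 A03 x3)
    (s12 : br_Seg G x1 A12 x2) (s13 : br_Seg G x1 A13 x3) (s23 : br_Seg G x2 A23 x3)
    (hp : [A01, A02, A03, A12, A13, A23].Pairwise (Anti G))
    (c1 : Anti G [x2] A01) (c2 : Anti G [x3] A01) (c3 : Anti G [x1] A02) (c4 : Anti G [x3] A02)
    (c5 : Anti G [x1] A03) (c6 : Anti G [x2] A03) (c7 : Anti G [x0] A12) (c8 : Anti G [x3] A12)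
    (c9 : Anti G [x0] A13) (c10 : Anti G [x2] A13) (c11 : Anti G [x0] A23) (c12 : Anti G [x1] A23) :
    KSys G ![x0, x1, x2, x3] (br_A A01 A02 A03 A12 A13 A23) := by
  have r01 := br_srev H s01
  have r02 := br_srev H s02
  have r03 := br_srev H s03
  have r12 := br_srev H s12
  have r13 := br_srev H s13
  have r23 := br_srev H s23
  refine ⟨?_, ?_, ?_, ?_, ?_, ?_, ?_⟩
  · intro i j hij
    have e01 := br_sne s01
    have e02 := br_sne s02
    have e03 := br_sne s03
    have e12 := br_sne s12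
    have e13 := br_sne s13
    have e23 := br_sne s23
    fin_cases i <;> fin_cases j <;> first
      | rfl
      | exact absurd hij e01
      | exact absurd hij e02
      | exact absurd hij e03
      | exact absurd hij e12
      | exact absurd hij e13
      | exact absurd hij e23
      | exact absurd hij.symm e01
      | exact absurd hij.symm e02
      | exact absurd hij.symm e03
      | exact absurd hij.symm e12
      | exact absurd hij.symm e13
      | exact absurd hij.symm e23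
  · intro i j
    fin_cases i <;> fin_cases j <;> first
      | rfl
      | exact (List.reverse_reverse _).symm
  · intro i j hij h
    fin_cases i <;> fin_cases j <;> first
      | exact absurd rfl hij
      | exact br_sadj s01 h
      | exact br_sadj s02 h
      | exact br_sadj s03 h
      | exact br_sadj s12 h
      | exact br_sadj s13 h
      | exact br_sadj s23 h
      | exact br_sadj r01 h
      | exact br_sadj r02 h
      | exact br_sadj r03 h
      | exact br_sadj r12 h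
      | exact br_sadj r13 h
      | exact br_sadj r23 h
  · intro i j hij h
    fin_cases i <;> fin_cases j <;> first
      | exact absurd rfl hij
      | exact br_snadj s01 h
      | exact br_snadj s02 h
      | exact br_snadj s03 h
      | exact br_snadj s12 h
      | exact br_snadj s13 h
      | exact br_snadj s23 h
      | exact br_snadj r01 h
      | exact br_snadj r02 h
      | exact br_snadj r03 h
      | exact br_snadj r12 h
      | exact br_snadj r13 h
      | exact br_snadj r23 h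
  · intro i j hij h
    fin_cases i <;> fin_cases j <;> first
      | exact absurd rfl hij
      | exact br_slink s01 h
      | exact br_slink s02 h
      | exact br_slink s03 h
      | exact br_slink s12 h
      | exact br_slink s13 h
      | exact br_slink s23 h
      | exact br_slink r01 h
      | exact br_slink r02 h
      | exact br_slink r03 h
      | exact br_slink r12 h
      | exact br_slink r13 h
      | exact br_slink r23 h
  · intro i j k l hij hkl h1 h2 a ha b hb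
    rw [br_mem _ _ _ _ _ _ i j hij] at ha
    rw [br_mem _ _ _ _ _ _ k l hkl] at hb
    have hne := br_idx_inj i j k l hij hkl h1 h2
    have hall : ∀ e f : Fin 6, e ≠ f → Anti G (br_B A01 A02 A03 A12 A13 A23 e)
        (br_B A01 A02 A03 A12 A13 A23 f) := by
      simp only [List.pairwise_cons, List.mem_cons, List.not_mem_nil, or_false, forall_eq_or_imp,
        forall_eq, List.Pairwise.nil, and_true, IsEmpty.forall_iff, implies_true] at hp
      obtain ⟨⟨p1, p2, p3, p4, p5⟩, ⟨p6, p7, p8, p9⟩, ⟨p10, p11, p12⟩, ⟨p13, p14⟩, p15⟩ := hp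
      intro e f hef
      fin_cases e <;> fin_cases f <;> first
        | exact absurd rfl hef
        | exact p1
        | exact p2
        | exact p3
        | exact p4
        | exact p5
        | exact p6
        | exact p7
        | exact p8
        | exact p9
        | exact p10
        | exact p11
        | exact p12
        | exact p13
        | exact p14
        | exact p15
        | exact br_symm p1
        | exact br_symm p2
        | exact br_symm p3
        | exact br_symm p4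
        | exact br_symm p5
        | exact br_symm p6
        | exact br_symm p7
        | exact br_symm p8
        | exact br_symm p9
        | exact br_symm p10
        | exact br_symm p11
        | exact br_symm p12
        | exact br_symm p13
        | exact br_symm p14
        | exact br_symm p15
    exact hall _ _ hne a ha b hb
  · intro i j k hij hki hkj
    fin_cases i <;> fin_cases j <;> fin_cases k <;> first
      | exact absurd rfl hij
      | exact absurd rfl hki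
      | exact absurd rfl hkj
      | exact c1
      | exact c2
      | exact c3
      | exact c4
      | exact c5
      | exact c6
      | exact c7
      | exact c8
      | exact c9
      | exact c10
      | exact c11
      | exact c12
      | exact br_revr c1
      | exact br_revr c2
      | exact br_revr c3
      | exact br_revr c4
      | exact br_revr c5
      | exact br_revr c6
      | exact br_revr c7
      | exact br_revr c8
      | exact br_revr c9
      | exact br_revr c10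
      | exact br_revr c11
      | exact br_revr c12

theorem br_nop4 (A01 A02 A03 A12 A13 A23 : List V) (h01 : A01 ≠ []) (h23 : A23 ≠ [])
    (hP : ¬ (A02 = [] ∧ A12 = [])) (hR : ¬ (A03 = [] ∧ A13 = [])) :
    NoP4 (br_A A01 A02 A03 A12 A13 A23) := by
  intro i j k l hij hik hil hjk hjl hkl ⟨h1, h2, h3⟩
  have key : ∀ i j : Fin 4, i ≠ j → br_A A01 A02 A03 A12 A13 A23 i j = [] →
      br_B A01 A02 A03 A12 A13 A23 (br_idx i j) = [] := by
    intro i j hij h
    apply List.eq_nil_iff_forall_not_mem.2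
    intro x hx
    rw [← br_mem _ _ _ _ _ _ i j hij, h] at hx
    exact absurd hx List.not_mem_nil
  have k1 := key i j hij h1
  have k2 := key j k hjk h2
  have k3 := key k l hkl h3
  have hz : ∀ e : Fin 6, (br_idx i j = e ∨ br_idx j k = e ∨ br_idx k l = e) →
      br_B A01 A02 A03 A12 A13 A23 e = [] := by
    rintro e (h | h | h)
    · rw [← h]; exact k1
    · rw [← h]; exact k2
    · rw [← h]; exact k3
  rcases br_idx_path i j k l hij hik hil hjk hjl hkl with h | h | ⟨h, h'⟩ | ⟨h, h'⟩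
  · exact h01 (hz 0 h)
  · exact h23 (hz 5 h)
  · exact hP ⟨hz 1 h, hz 3 h'⟩
  · exact hR ⟨hz 2 h, hz 4 h'⟩

/-! ### Lists -/

theorem br_first {p : V → Prop} {L : List V} (h : ∃ x ∈ L, p x) :
    ∃ A x B, L = A ++ x :: B ∧ p x ∧ ∀ z ∈ A, ¬ p z := by
  induction L with
  | nil => simp at h
  | cons a L ih =>
    by_cases ha : p a
    · exact ⟨[], a, L, rfl, ha, by simp⟩
    · obtain ⟨x, hx, hpx⟩ := h
      have hxL : x ∈ L := by
        rcases List.mem_cons.1 hx with h | h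
        · exact absurd (h ▸ hpx) ha
        · exact h
      obtain ⟨A, z, B, h1, h2, h3⟩ := ih ⟨x, hxL, hpx⟩
      refine ⟨a :: A, z, B, by rw [h1]; rfl, h2, ?_⟩
      intro z hz
      rcases List.mem_cons.1 hz with h | h
      · rw [h]; exact ha
      · exact h3 z h

theorem br_lst {p : V → Prop} {L : List V} (h : ∃ x ∈ L, p x) :
    ∃ A x B, L = A ++ x :: B ∧ p x ∧ ∀ z ∈ B, ¬ p z := by
  obtain ⟨A, x, B, h1, h2, h3⟩ := br_first (L := L.reverse) (p := p) (by
    obtain ⟨x, hx, hp⟩ := h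
    exact ⟨x, List.mem_reverse.2 hx, hp⟩)
  refine ⟨B.reverse, x, A.reverse, ?_, h2, fun z hz => h3 z (List.mem_reverse.1 hz)⟩
  rw [← List.reverse_reverse L, h1]
  simp

theorem br_ch {L : List V} (h : IP G L) : Ch G L :=
  fun i hi => (h.2 i (i + 1) (by omega) hi (by omega)).2 rfl

theorem br_chain {K : Set V} {L : List V} (hL : ∀ x ∈ L, x ∈ K) (hc : Ch G L) :
    ∀ (i : ℕ) (h0 : 0 < L.length) (hi : i < L.length),
      (G.induce K).Reachable ⟨L[0], hL _ (List.getElem_mem h0)⟩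
        ⟨L[i], hL _ (List.getElem_mem hi)⟩ := by
  intro i
  induction i with
  | zero => intro h0 hi; exact SimpleGraph.Reachable.refl _
  | succ i ih =>
    intro h0 hi
    have hi' : i < L.length := by omega
    refine (ih h0 hi').trans (SimpleGraph.Adj.reachable ?_)
    rw [SimpleGraph.comap_adj]
    exact hc i hi

theorem br_reach {K : Set V} {L : List V} (hL : ∀ x ∈ L, x ∈ K) (hc : Ch G L) {a b : V}
    (ha : a ∈ L) (hb : b ∈ L) (ha' : a ∈ K) (hb' : b ∈ K) :
    (G.induce K).Reachable ⟨a, ha'⟩ ⟨b, hb'⟩ := by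
  obtain ⟨i, hi, rfl⟩ := List.mem_iff_getElem.1 ha
  obtain ⟨j, hj, rfl⟩ := List.mem_iff_getElem.1 hb
  exact (br_chain hL hc i (by omega) hi).symm.trans (br_chain hL hc j (by omega) hj)

theorem br_hl_ne {Y1 Y2 : List V} {x : V} (hn : (Y1 ++ Y2).Nodup) (h2 : Y2 ≠ [])
    (hx : x ∈ Y1) : (Y1 ++ Y2).getLast? ≠ some x := by
  intro h
  rw [List.getLast?_append_of_ne_nil Y1 h2] at h
  have h3 := List.mem_of_getLast? h
  exact (List.nodup_append.1 hn).2.2 x hx x h3 rfl

theorem br_hh_ne {Y1 Y2 : List V} {x : V} (hn : (Y1 ++ Y2).Nodup) (h1 : Y1 ≠ [])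
    (hx : x ∈ Y2) : (Y1 ++ Y2).head? ≠ some x := by
  intro h
  rw [List.head?_append_of_ne_nil Y1 h1] at h
  have h3 := List.mem_of_head? h
  exact (List.nodup_append.1 hn).2.2 x h3 x hx rfl

/-! ### The data -/

/-- weak data -/
structure br_D (G : SimpleGraph V) (y u w : V) (P R Y : List V) : Prop where
  yu : G.Adj y u
  yw : G.Adj y w
  uw : u ≠ w
  lP : Link G u P w
  lR : Link G u R w
  PR : Anti G P R
  yP : Anti G [y] P
  yR : Anti G [y] R
  ne : Y ≠ []
  ch : Ch G Y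
  far : ∀ z ∈ Y, z ∈ Far G y
  hp : ∃ z ∈ Y, ∃ p ∈ P, G.Adj z p
  hr : ∃ z ∈ Y, ∃ r ∈ R, G.Adj z r

/-- strong data -/
structure br_S (G : SimpleGraph V) (y u w : V) (P R Y : List V) : Prop where
  yu : G.Adj y u
  yw : G.Adj y w
  uw : u ≠ w
  lP : Link G u P w
  lR : Link G u R w
  PR : Anti G P R
  yP : Anti G [y] P
  yR : Anti G [y] R
  ne : Y ≠ []
  ip : IP G Y
  far : ∀ z ∈ Y, z ∈ Far G y
  nP : ∀ z ∈ Y, z ∉ P
  nR : ∀ z ∈ Y, z ∉ R
  hP : ∀ z ∈ Y, (∃ p ∈ P, G.Adj z p) ↔ Y.head? = some z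
  hR : ∀ z ∈ Y, (∃ r ∈ R, G.Adj z r) ↔ Y.getLast? = some z

theorem br_mkS (H : br_H) {y u w : V} {P R : List V} (K : Set V)
    (yu : G.Adj y u) (yw : G.Adj y w) (uw : u ≠ w) (lP : Link G u P w) (lR : Link G u R w)
    (PR : Anti G P R) (yP : Anti G [y] P) (yR : Anti G [y] R)
    (hK : (G.induce K).Preconnected) (hKP : ∀ x ∈ P, x ∈ K) (hKR : ∀ x ∈ R, x ∈ K)
    (hKf : ∀ x ∈ K, x ∈ Far G y) :
    ∃ Y, br_S G y u w P R Y ∧ ∀ z ∈ Y, z ∈ K ∧ z ∉ P ∧ z ∉ R := by
  obtain ⟨p, hp⟩ := List.exists_mem_of_ne_nil P lP.1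
  obtain ⟨r, hr⟩ := List.exists_mem_of_ne_nil R lR.1
  obtain ⟨Y, h1, h2, h3, h4, h5⟩ := H.dst V G K {x | x ∈ P} {x | x ∈ R} hK
    (fun x hx => hKP x hx) (fun x hx => hKR x hx) ⟨p, hp⟩ ⟨r, hr⟩ PR
  exact ⟨Y, ⟨yu, yw, uw, lP, lR, PR, yP, yR, h1, h2, fun z hz => hKf z (h3 z hz).1,
    fun z hz => (h3 z hz).2.1, fun z hz => (h3 z hz).2.2, h4, h5⟩, h3⟩

theorem br_norm (H : br_H) {y u w : V} {P R Y : List V} (D : br_D G y u w P R Y) :
    ∃ Y', Y'.length ≤ Y.length ∧ br_S G y u w P R Y' := by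
  have hP : ∀ x ∈ P, x ∈ {x | x ∈ P ∨ x ∈ R ∨ x ∈ Y} := fun x hx => Or.inl hx
  have hR : ∀ x ∈ R, x ∈ {x | x ∈ P ∨ x ∈ R ∨ x ∈ Y} := fun x hx => Or.inr (Or.inl hx)
  have hY : ∀ x ∈ Y, x ∈ {x | x ∈ P ∨ x ∈ R ∨ x ∈ Y} := fun x hx => Or.inr (Or.inr hx)
  obtain ⟨y1, hy1, p, hp, h1⟩ := D.hp
  obtain ⟨y2, hy2, r, hr, h2⟩ := D.hr
  have hconn : (G.induce {x | x ∈ P ∨ x ∈ R ∨ x ∈ Y}).Preconnected := by
    have key : ∀ (a : V) (ha : a ∈ {x | x ∈ P ∨ x ∈ R ∨ x ∈ Y}),
        (G.induce {x | x ∈ P ∨ x ∈ R ∨ x ∈ Y}).Reachable ⟨a, ha⟩ ⟨y1, hY y1 hy1⟩ := by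
      rintro a (ha | ha | ha)
      · refine (br_reach hP (br_ch D.lP.2.1) ha hp (hP a ha) (hP p hp)).trans
          (SimpleGraph.Adj.reachable ?_)
        rw [SimpleGraph.comap_adj]
        exact h1.symm
      · refine (br_reach hR (br_ch D.lR.2.1) ha hr (hR a ha) (hR r hr)).trans
          ((SimpleGraph.Adj.reachable ?_).trans
            (br_reach hY D.ch hy2 hy1 (hY y2 hy2) (hY y1 hy1)))
        rw [SimpleGraph.comap_adj]
        exact h2.symm
      · exact br_reach hY D.ch ha hy1 (hY a ha) (hY y1 hy1)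
    intro a b
    exact (key a.1 a.2).trans (key b.1 b.2).symm
  obtain ⟨Y', hS, h3⟩ := br_mkS H {x | x ∈ P ∨ x ∈ R ∨ x ∈ Y} D.yu D.yw D.uw D.lP D.lR D.PR D.yP
    D.yR hconn hP hR (by
      rintro x (hx | hx | hx)
      · exact ⟨(br_sing' D.yP x hx).1.symm, (br_sing' D.yP x hx).2⟩
      · exact ⟨(br_sing' D.yR x hx).1.symm, (br_sing' D.yR x hx).2⟩
      · exact D.far x hx)
  refine ⟨Y', ?_, hS⟩
  apply List.Subperm.length_le
  apply List.subperm_of_subset hS.ip.1
  intro z hz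
  obtain ⟨h4 | h4 | h4, h5, h6⟩ := h3 z hz
  · exact absurd h4 h5
  · exact absurd h4 h6
  · exact h4

theorem br_three (H : br_H) (hW : ¬ HasW G) {u w : V} {A B : List V} (hA : Link G u A w)
    (hB : Link G u B w) (hAB : Anti G A B) (huw : u ≠ w) (hnu : ¬ G.Adj u w) {h a b c : V}
    (hh : ¬ (h = u ∨ h = w ∨ h ∈ A ∨ h ∈ B))
    (ha : a = u ∨ a = w ∨ a ∈ A ∨ a ∈ B) (hb : b = u ∨ b = w ∨ b ∈ A ∨ b ∈ B)
    (hc : c = u ∨ c = w ∨ c ∈ A ∨ c ∈ B) (ab : a ≠ b) (ac : a ≠ c) (bc : b ≠ c)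
    (h1 : G.Adj h a) (h2 : G.Adj h b) (h3 : G.Adj h c) : False := by
  have key : ∀ x, x ∈ u :: (A ++ w :: B.reverse) ↔ (x = u ∨ x = w ∨ x ∈ A ∨ x ∈ B) := by
    intro x
    simp only [List.mem_cons, List.mem_append, List.mem_reverse]
    tauto
  apply hW
  exact ⟨h, u :: (A ++ w :: B.reverse), a, b, c, H.cy2 V G u w A B hA hB hAB huw hnu,
    fun h4 => hh ((key h).1 h4), (key a).2 ha, (key b).2 hb, (key c).2 hc, ab, ac, bc, h1, h2, h3⟩

section data
variable {y u w : V} {P R Y : List V}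

theorem br_nuw (hg : Girth5 G) (S : br_S G y u w P R Y) : ¬ G.Adj u w :=
  hg.1 u y w S.yu.symm S.yw

theorem br_fu (S : br_S G y u w P R Y) {z : V} (hz : z ∈ Y) :
    u ≠ z ∧ w ≠ z ∧ y ≠ z ∧ ¬ G.Adj y z := by
  obtain ⟨h1, h2⟩ := S.far z hz
  refine ⟨?_, ?_, h1.symm, h2⟩
  · rintro rfl; exact h2 S.yu
  · rintro rfl; exact h2 S.yw

theorem br_f2 (hg : Girth5 G) (S : br_S G y u w P R Y) {z : V} (hz : z ∈ Y) (h : G.Adj u z) :
    ¬ G.Adj w z :=
  hg.2 z u y w (br_fu S hz).2.2.1.symm S.uw h.symm S.yu.symm S.yw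

theorem br_sym1 (H : br_H) (S : br_S G y u w P R Y) : br_S G y w u P.reverse R.reverse Y :=
  ⟨S.yw, S.yu, S.uw.symm, H.rev V G u w P S.lP, H.rev V G u w R S.lR,
    br_revl (br_revr S.PR), br_revr S.yP, br_revr S.yR, S.ne, S.ip, S.far,
    fun z hz h => S.nP z hz (List.mem_reverse.1 h), fun z hz h => S.nR z hz (List.mem_reverse.1 h),
    fun z hz => by simpa only [List.mem_reverse] using S.hP z hz,
    fun z hz => by simpa only [List.mem_reverse] using S.hR z hz⟩

theorem br_iprev {L : List V} (h : IP G L) : IP G L.reverse := by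
  refine ⟨List.nodup_reverse.2 h.1, ?_⟩
  intro i j hi hj hij
  rw [List.length_reverse] at hi hj
  rw [List.getElem_reverse, List.getElem_reverse, SimpleGraph.adj_comm,
    h.2 (L.length - 1 - j) (L.length - 1 - i) (by omega) (by omega) (by omega)]
  omega

theorem br_sym2 (S : br_S G y u w P R Y) : br_S G y u w R P Y.reverse :=
  ⟨S.yu, S.yw, S.uw, S.lR, S.lP, br_symm S.PR, S.yR, S.yP, by simpa using S.ne, br_iprev S.ip,
    fun z hz => S.far z (List.mem_reverse.1 hz), fun z hz => S.nR z (List.mem_reverse.1 hz),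
    fun z hz => S.nP z (List.mem_reverse.1 hz),
    fun z hz => by rw [List.head?_reverse]; exact S.hR z (List.mem_reverse.1 hz),
    fun z hz => by rw [List.getLast?_reverse]; exact S.hP z (List.mem_reverse.1 hz)⟩

/-- the link through `Y` -/
theorem br_lY (S : br_S G y u w P R Y) {p r : V} (hp : p ∈ P) (hr : r ∈ R)
    (h1 : ∀ z, Y.head? = some z → G.Adj p z) (h2 : ∀ z, Y.getLast? = some z → G.Adj r z) :
    Link G p Y r :=
  ⟨S.ne, S.ip, fun h => S.nP p h hp, fun h => S.nR r h hr,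
    fun x hx => ⟨fun h => (S.hP x hx).1 ⟨p, hp, h.symm⟩, fun h => h1 x h⟩,
    fun x hx => ⟨fun h => (S.hR x hx).1 ⟨r, hr, h.symm⟩, fun h => h2 x h⟩⟩

/-- decomposition of `Y` relative to the last neighbour of its head in `P` -/
theorem br_pick (_ : br_H) (S : br_S G y u w P R Y) :
    ∃ P1 p P2, P = P1 ++ p :: P2 ∧ (∀ z, Y.head? = some z → G.Adj p z) ∧
      (∀ z ∈ Y, ∀ q ∈ P2, z ≠ q ∧ ¬ G.Adj z q) := by
  obtain ⟨z, hz⟩ : ∃ z, Y.head? = some z := by
    cases hY : Y with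
    | nil => exact absurd hY S.ne
    | cons a L => exact ⟨a, rfl⟩
  have hzY : z ∈ Y := List.mem_of_head? hz
  obtain ⟨P1, p, P2, h1, h2, h3⟩ := br_lst (p := fun q => G.Adj z q) ((S.hP z hzY).2 hz)
  refine ⟨P1, p, P2, h1, ?_, ?_⟩
  · intro z' hz'
    rw [hz] at hz'
    rw [← Option.some.inj hz']
    exact h2.symm
  · intro z' hz' q hq
    have hqP : q ∈ P := by rw [h1]; simp [hq]
    refine ⟨fun h => S.nP z' hz' (h ▸ hqP), fun h => ?_⟩
    have h4 := (S.hP z' hz').1 ⟨q, hqP, h⟩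
    rw [hz] at h4
    rw [← Option.some.inj h4] at h
    exact h3 q hq h

theorem br_pickR (H : br_H) (S : br_S G y u w P R Y) :
    ∃ R1 r R2, R = R1 ++ r :: R2 ∧ (∀ z, Y.getLast? = some z → G.Adj r z) ∧
      (∀ z ∈ Y, ∀ q ∈ R2, z ≠ q ∧ ¬ G.Adj z q) := by
  obtain ⟨R1, r, R2, h1, h2, h3⟩ := br_pick H (br_sym2 S)
  refine ⟨R1, r, R2, h1, fun z hz => h2 z (by rw [List.head?_reverse]; exact hz),
    fun z hz => h3 z (List.mem_reverse.2 hz)⟩

theorem br_core (H : br_H) (hg : Girth5 G) (hW : ¬ HasW G) (hK : ¬ HasK G)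
    (S : br_S G y u w P R Y)
    (IH : ∀ (u w : V) (P R Y' : List V), Y'.length < Y.length → ¬ br_D G y u w P R Y')
    {Y1 Y2 : List V} {z : V} (hY : Y = Y1 ++ z :: Y2) (h2 : Y2 ≠ [])
    (h1 : ∀ x ∈ Y1, ¬ G.Adj u x ∧ ¬ G.Adj w x) : ¬ G.Adj u z := by
  intro huz
  have hzY : z ∈ Y := by rw [hY]; simp
  have hwz : ¬ G.Adj w z := br_f2 hg S hzY huz
  have hY1 : ∀ x ∈ Y1, x ∈ Y := fun x hx => by rw [hY]; simp [hx]
  have hY2 : ∀ x ∈ Y2, x ∈ Y := fun x hx => by rw [hY]; simp [hx]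
  have hYz : Y = (Y1 ++ [z]) ++ Y2 := by rw [hY]; simp
  have hnod : ((Y1 ++ [z]) ++ Y2).Nodup := by rw [← hYz]; exact S.ip.1
  have hnl : ∀ x ∈ Y1 ++ [z], Y.getLast? ≠ some x := by
    intro x hx
    rw [hYz]
    exact br_hl_ne hnod h2 hx
  have hYz1 : ∀ x ∈ Y1 ++ [z], x ∈ Y := fun x hx => by rw [hYz]; simp only [List.mem_append]; exact Or.inl (List.mem_append.1 hx)
  -- elements of `Y1 ++ [z]` are far from `R`
  have hRa : Anti G (Y1 ++ [z]) R := by
    intro x hx r hr
    refine ⟨fun h => S.nR x (hYz1 x hx) (h ▸ hr), fun h => hnl x hx ?_⟩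
    exact (S.hR x (hYz1 x hx)).1 ⟨r, hr, h⟩
  obtain ⟨P1, p, P2, hP, hp1, hp2⟩ := br_pick H S
  obtain ⟨R1, r, R2, hR, hr1, hr2⟩ := br_pickR H S
  have hpP : p ∈ P := by rw [hP]; simp
  have hrR : r ∈ R := by rw [hR]; simp
  have hP2 : ∀ x ∈ P2, x ∈ P := fun x hx => by rw [hP]; simp [hx]
  have hR2 : ∀ x ∈ R2, x ∈ R := fun x hx => by rw [hR]; simp [hx]
  have hl : Link G p (Y1 ++ z :: Y2) r := by rw [← hY]; exact br_lY S hpP hrR hp1 hr1
  obtain ⟨s1, s2, s3, s4, s5, s6, s7⟩ := br_spl H hl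
  have hlP : Link G u (P1 ++ p :: P2) w := by rw [← hP]; exact S.lP
  obtain ⟨t1, t2, t3, t4, t5, t6, t7⟩ := br_spl H hlP
  have hlR : Link G u (R1 ++ r :: R2) w := by rw [← hR]; exact S.lR
  obtain ⟨v1, v2, v3, v4, v5, v6, v7⟩ := br_spl H hlR
  have lzY2 : Link G z Y2 r := br_slink s2 h2
  have uY1 : Anti G [u] Y1 := br_sing fun x hx => ⟨(br_fu S (hY1 x hx)).1, (h1 x hx).1⟩
  have wY1 : Anti G [w] Y1 := br_sing fun x hx => ⟨(br_fu S (hY1 x hx)).2.1, (h1 x hx).2⟩
  have P2Y : Anti G Y P2 := hp2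
  by_cases hP1 : P1 = []
  · -- `p` is adjacent to `u`
    subst hP1
    have hup : G.Adj u p := br_sadj t1 rfl
    have hyp : y ≠ p ∧ ¬ G.Adj y p := br_sing' S.yP p hpP
    have hP2ne : P2 ≠ [] := by
      intro h
      have hpw : G.Adj p w := br_sadj t2 h
      exact hg.2 u p w y S.uw hyp.1.symm hup hpw S.yw.symm S.yu
    have hY1ne : Y1 ≠ [] := by
      intro h
      have hpz : G.Adj p z := br_sadj s1 h
      exact hg.1 u p z hup hpz huz
    have hpz : ¬ G.Adj p z := br_snadj s1 hY1ne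
    obtain ⟨D, hD1, hD2, hD3, hD4⟩ : ∃ D : List V, Link G z D w ∧ Anti G D Y1 ∧ Anti G [p] D ∧
        (∀ x ∈ D, x ∈ Y ∨ x ∈ R) := by
      by_cases hw : ∃ x ∈ Y2, G.Adj w x
      · obtain ⟨Y3, z', Y4, e1, e2, e3⟩ := br_first hw
        have hl2 : Link G z (Y3 ++ z' :: Y4) r := by rw [← e1]; exact lzY2
        obtain ⟨q1, q2, q3, q4, q5, q6, q7⟩ := br_spl H hl2
        have hsub : ∀ x ∈ Y3 ++ [z'], x ∈ Y2 := by
          intro x hx
          rw [e1]
          simp only [List.mem_append, List.mem_cons, List.not_mem_nil, or_false] at hx ⊢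
          tauto
        refine ⟨Y3 ++ [z'], ?_, br_sub (br_symm s3) hsub (fun x hx => hx),
          br_sub s4 (fun x hx => hx) hsub, fun x hx => Or.inl (hY2 x (hsub x hx))⟩
        refine br_cat H q1 (Or.inl ⟨rfl, e2.symm⟩) (br_nilr _) (br_nilr _) ?_
        exact br_sing fun x hx =>
          ⟨(br_fu S (hY2 x (hsub x (List.mem_append_left _ hx)))).2.1, e3 x hx⟩
      · push Not at hw
        refine ⟨Y2 ++ r :: R2, ?_, ?_, ?_, ?_⟩
        · refine br_cat H s2 v2 (br_sub hr2 hY2 (fun x hx => hx)) ?_ ?_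
          · exact br_sing fun x hx => hr2 z hzY x hx
          · exact br_sing fun x hx => ⟨(br_fu S (hY2 x hx)).2.1, hw x hx⟩
        · refine br_appl (br_symm s3) (br_consl s5 ?_)
          exact br_symm (br_sub hRa (fun x hx => List.mem_append_left _ hx) hR2)
        · refine br_appr s4 (br_sub S.PR (fun x hx => ?_) (fun x hx => ?_))
          · rw [List.mem_singleton.1 hx]; exact hpP
          · rw [hR]; exact List.mem_append_right _ hx
        · intro x hx
          rcases List.mem_append.1 hx with h | h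
          · exact Or.inl (hY2 x h)
          · right
            rw [hR]
            exact List.mem_append_right _ h
    have hPD : Anti G P2 D := by
      intro q hq x hx
      rcases hD4 x hx with h | h
      · exact br_symm P2Y q hq x h
      · exact S.PR q (hP2 q hq) x h
    have zP2 : Anti G [z] P2 := br_sing fun q hq => hp2 z hzY q hq
    have sD : br_Seg G w D.reverse z :=
      br_srev H (Or.inr ⟨hD1, fun h => hwz h.symm, (br_fu S hzY).2.1.symm⟩)
    have lA : Link G p (P2 ++ w :: D.reverse) z :=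
      br_cat H t2 sD (br_revr hPD) (br_revr hD3) zP2
    have lB : Link G p Y1 z := br_slink s1 hY1ne
    have hAB : Anti G (P2 ++ w :: D.reverse) Y1 :=
      br_appl (br_symm (br_sub P2Y hY1 (fun x hx => hx))) (br_consl wY1 (br_revl hD2))
    have hDY : ∀ x ∈ D, u ≠ x ∧ y ≠ x := by
      intro x hx
      rcases hD4 x hx with h | h
      · exact ⟨(br_fu S h).1, (br_fu S h).2.2.1⟩
      · exact ⟨fun h' => S.lR.2.2.1 (h' ▸ h), (br_sing' S.yR x h).1⟩
    have huA : u ∉ P2 ++ w :: D.reverse := by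
      intro h
      rcases List.mem_append.1 h with h | h
      · exact S.lP.2.2.1 (hP2 u h)
      · rcases List.mem_cons.1 h with h | h
        · exact S.uw h
        · exact (hDY u (List.mem_reverse.1 h)).1 rfl
    have hyA : y ∉ P2 ++ w :: D.reverse := by
      intro h
      rcases List.mem_append.1 h with h | h
      · exact (br_sing' S.yP y (hP2 y h)).1 rfl
      · rcases List.mem_cons.1 h with h | h
        · exact S.yw.ne h
        · exact (hDY y (List.mem_reverse.1 h)).2 rfl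
    have uA : Anti G [u] (P2 ++ w :: D.reverse) := by
      apply br_sing
      intro x hx
      refine ⟨fun h => huA (h ▸ hx), fun h => ?_⟩
      refine br_three H hW lA lB hAB s6 hpz (h := u) (a := p) (b := z) (c := x) ?_
        (Or.inl rfl) (Or.inr (Or.inl rfl)) (Or.inr (Or.inr (Or.inl hx))) s6
        (fun h' => lA.2.2.1 (h' ▸ hx)) (fun h' => lA.2.2.2.1 (h' ▸ hx)) hup huz h
      rintro (h' | h' | h' | h')
      · exact t6 h'
      · exact (br_fu S hzY).1 h'
      · exact huA h'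
      · exact (br_fu S (hY1 u h')).1 rfl
    rcases H.hub V G u y p z (P2 ++ w :: D.reverse) Y1 hg hup huz s6 S.yu.symm hyp.1
      (br_fu S hzY).2.2.1 lA lB hAB uA uY1
      (br_sing fun x hx => ⟨(br_fu S (hY1 x hx)).2.2.1, (br_fu S (hY1 x hx)).2.2.2⟩) hyA
      ⟨w, by simp, S.yw⟩ with h | h
    · exact hW h
    · exact hK h
  · have hup : ¬ G.Adj u p := br_snadj t1 hP1
    have l1 : Link G p (Y1 ++ z :: []) u :=
      br_cat H s1 (Or.inl ⟨rfl, huz.symm⟩) (br_nilr _) (br_nilr _) uY1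
    have sg : br_Seg G u (Y1 ++ [z]).reverse p :=
      br_srev H (Or.inr ⟨l1, fun h => hup h.symm, t6.symm⟩)
    have hYP2 : Anti G (Y1 ++ [z]) P2 := br_sub P2Y hYz1 (fun x hx => hx)
    have wY : Anti G [w] (Y1 ++ [z]) := by
      refine br_appr wY1 (br_sing fun x hx => ?_)
      rw [List.mem_singleton.1 hx]
      exact ⟨(br_fu S hzY).2.1, hwz⟩
    have lP' : Link G u ((Y1 ++ [z]).reverse ++ p :: P2) w :=
      br_cat H sg t2 (br_revl hYP2) t4 (br_revr wY)
    obtain ⟨a, ha⟩ : ∃ a, Y2.head? = some a := by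
      obtain ⟨a, T, hT⟩ := List.exists_cons_of_ne_nil h2
      exact ⟨a, by rw [hT]; rfl⟩
    obtain ⟨b, hb⟩ : ∃ b, Y2.getLast? = some b := ⟨_, List.getLast?_eq_getLast_of_ne_nil h2⟩
    have ha' : a ∈ Y2 := List.mem_of_head? ha
    have hb' : b ∈ Y2 := List.mem_of_getLast? hb
    refine IH u w ((Y1 ++ [z]).reverse ++ p :: P2) R Y2 (by rw [hY]; simp; omega)
      ⟨S.yu, S.yw, S.uw, lP', S.lR, ?_, ?_, S.yR, h2, br_ch lzY2.2.1,
        fun x hx => S.far x (hY2 x hx), ⟨a, ha', z, by simp, ?_⟩, ⟨b, hb', r, hrR, ?_⟩⟩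
    · refine br_appl (br_revl hRa) (br_sub S.PR (fun x hx => ?_) (fun x hx => hx))
      rw [hP]; exact List.mem_append_right _ hx
    · refine br_appr (br_revr (br_sing fun x hx =>
        ⟨(br_fu S (hYz1 x hx)).2.2.1, (br_fu S (hYz1 x hx)).2.2.2⟩))
        (br_sub S.yP (fun x hx => hx) (fun x hx => ?_))
      rw [hP]; exact List.mem_append_right _ hx
    · exact ((lzY2.2.2.2.2.1 a ha').2 ha).symm
    · exact ((lzY2.2.2.2.2.2 b hb').2 hb).symm

theorem br_claim (H : br_H) (hg : Girth5 G) (hW : ¬ HasW G) (hK : ¬ HasK G)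
    (S : br_S G y u w P R Y)
    (IH : ∀ (u w : V) (P R Y' : List V), Y'.length < Y.length → ¬ br_D G y u w P R Y') :
    ∀ (n : ℕ) (Y1 Y2 : List V) (z : V), Y1.length = n → Y = Y1 ++ z :: Y2 → Y2 ≠ [] →
      ¬ G.Adj u z ∧ ¬ G.Adj w z := by
  intro n
  induction n using Nat.strong_induction_on with
  | _ n ih =>
    intro Y1 Y2 z hn hY h2
    have h1 : ∀ x ∈ Y1, ¬ G.Adj u x ∧ ¬ G.Adj w x := by
      intro x hx
      obtain ⟨A, B, hAB⟩ := List.append_of_mem hx
      exact ih A.length (by rw [← hn, hAB]; simp) A (B ++ z :: Y2) x rfl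
        (by rw [hY, hAB]; simp) (by simp)
    exact ⟨br_core H hg hW hK S IH hY h2 h1, br_core H hg hW hK (br_sym1 H S) IH hY h2
      (fun x hx => (h1 x hx).symm)⟩

theorem br_all (H : br_H) (hg : Girth5 G) (hW : ¬ HasW G) (hK : ¬ HasK G)
    (S : br_S G y u w P R Y)
    (IH : ∀ (u w : V) (P R Y' : List V), Y'.length < Y.length → ¬ br_D G y u w P R Y')
    (h2 : 2 ≤ Y.length) : ∀ z ∈ Y, ¬ G.Adj u z ∧ ¬ G.Adj w z := by
  intro z hz
  obtain ⟨A, B, hAB⟩ := List.append_of_mem hz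
  by_cases hB : B = []
  · have hA : A ≠ [] := by
      intro hA
      rw [hAB, hB, hA] at h2
      simp at h2
    exact br_claim H hg hW hK (br_sym2 S) (by rw [List.length_reverse]; exact IH) _ B.reverse
      A.reverse z rfl (by rw [hAB]; simp) (by simpa using hA)
  · exact br_claim H hg hW hK S IH _ A B z rfl hAB hB

theorem br_uniq (H : br_H) (hg : Girth5 G) (hW : ¬ HasW G)
    (S : br_S G y u w P R Y)
    (IH : ∀ (u w : V) (P R Y' : List V), Y'.length < Y.length → ¬ br_D G y u w P R Y')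
    (hno : ∀ z ∈ Y, ¬ G.Adj u z ∧ ¬ G.Adj w z) :
    ∃ P1 p P2, P = P1 ++ p :: P2 ∧ (∀ z, Y.head? = some z → G.Adj p z) ∧
      Anti G Y P1 ∧ Anti G Y P2 := by
  obtain ⟨P1, p, P2, hP, hp1, hp2⟩ := br_pick H S
  refine ⟨P1, p, P2, hP, hp1, ?_, hp2⟩
  obtain ⟨a, T, hYT⟩ : ∃ a T, Y = a :: T := List.exists_cons_of_ne_nil S.ne
  have haY : a ∈ Y := by rw [hYT]; simp
  have hah : Y.head? = some a := by rw [hYT]; rfl
  have hpa : G.Adj p a := hp1 a hah
  have hpP : p ∈ P := by rw [hP]; simp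
  by_contra hcon
  obtain ⟨q, hq, haq⟩ : ∃ q ∈ P1, G.Adj a q := by
    by_contra hc
    push Not at hc
    apply hcon
    intro x hx q hq
    have hqP : q ∈ P := by rw [hP]; simp [hq]
    refine ⟨fun h => S.nP x hx (h ▸ hqP), fun h => ?_⟩
    have h4 := (S.hP x hx).1 ⟨q, hqP, h⟩
    rw [hah] at h4
    rw [← Option.some.inj h4] at h
    exact hc q hq h
  have hqP : q ∈ P := by rw [hP]; simp [hq]
  have hnod : (P1 ++ p :: P2).Nodup := by rw [← hP]; exact S.lP.2.1.1
  have hqp : q ≠ p := fun h => (List.nodup_append.1 hnod).2.2 q hq p (by simp) h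
  have hha : ¬ (a = u ∨ a = w ∨ a ∈ P ∨ a ∈ R) := by
    rintro (h | h | h | h)
    · exact (br_fu S haY).1 h.symm
    · exact (br_fu S haY).2.1 h.symm
    · exact S.nP a haY h
    · exact S.nR a haY h
  have three : ∀ x, (x = u ∨ x = w ∨ x ∈ P ∨ x ∈ R) → x ≠ p → x ≠ q → ¬ G.Adj a x := by
    intro x hx h1 h2 h3
    exact br_three H hW S.lP S.lR S.PR S.uw (br_nuw hg S) hha hx (Or.inr (Or.inr (Or.inl hpP)))
      (Or.inr (Or.inr (Or.inl hqP))) h1 h2 hqp.symm h3 hpa.symm haq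
  by_cases hT : T = []
  · obtain ⟨r, hr, har⟩ := (S.hR a haY).2 (by rw [hYT, hT]; rfl)
    exact three r (Or.inr (Or.inr (Or.inr hr))) (fun h => (S.PR p hpP r hr).1 h.symm)
      (fun h => (S.PR q hqP r hr).1 h.symm) har
  · obtain ⟨R1, r, R2, hR, hr1, hr2⟩ := br_pickR H S
    have hrR : r ∈ R := by rw [hR]; simp
    have hl : Link G p ([] ++ a :: T) r := by
      rw [List.nil_append, ← hYT]; exact br_lY S hpP hrR hp1 hr1
    obtain ⟨-, s2, -, -, -, -, -⟩ := br_spl H hl
    have laT : Link G a T r := br_slink s2 hT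
    obtain ⟨Q1, Q2, hQ⟩ := List.append_of_mem hq
    have hPQ : P = Q1 ++ q :: (Q2 ++ p :: P2) := by rw [hP, hQ]; simp
    have hlP : Link G u (Q1 ++ q :: (Q2 ++ p :: P2)) w := by rw [← hPQ]; exact S.lP
    obtain ⟨t1, t2, t3, t4, t5, t6, t7⟩ := br_spl H hlP
    have hlq : Link G q (Q2 ++ p :: P2) w := br_slink t2 (by simp)
    have hqw : ¬ G.Adj q w := br_snadj t2 (by simp)
    obtain ⟨v1, v2, v3, v4, v5, v6, v7⟩ := br_spl H hlq
    have hqpa : ¬ G.Adj q p := hg.1 q a p haq.symm hpa.symm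
    have hQ1P : ∀ x ∈ Q1, x ∈ P := fun x hx => by rw [hPQ]; simp [hx]
    have aQ1 : Anti G [a] Q1 := by
      apply br_sing
      intro x hx
      refine ⟨fun h => S.nP a haY (h ▸ hQ1P x hx), three x (Or.inr (Or.inr (Or.inl (hQ1P x hx))))
        (t3 x hx p (by simp)).1 ?_⟩
      have hn2 : (Q1 ++ q :: (Q2 ++ p :: P2)).Nodup := by rw [← hPQ]; exact S.lP.2.1.1
      exact fun h => (List.nodup_append.1 hn2).2.2 x hx q (by simp) h
    have l1 : Link G u (Q1 ++ q :: []) a :=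
      br_cat H t1 (Or.inl ⟨rfl, haq.symm⟩) (br_nilr _) (br_nilr _) aQ1
    have l2 : Link G a ([] ++ p :: P2) w :=
      br_cat H (Or.inl ⟨rfl, hpa.symm⟩) v2 (br_nill _)
        (br_sing fun x hx => hp2 a haY x hx) (br_nilr _)
    have sg1 : br_Seg G u (Q1 ++ [q]) a := Or.inr ⟨l1, (hno a haY).1, (br_fu S haY).1⟩
    have sg2 : br_Seg G a (p :: P2) w :=
      Or.inr ⟨l2, fun h => (hno a haY).2 h.symm, (br_fu S haY).2.1.symm⟩
    have lP' : Link G u ((Q1 ++ [q]) ++ a :: (p :: P2)) w := by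
      refine br_cat H sg1 sg2 ?_ ?_ ?_
      · refine br_appl (br_sub t3 (fun x hx => hx) (fun x hx => List.mem_append_right _ hx)) ?_
        refine br_consr (br_sing fun x hx => ?_) v4
        rw [List.mem_singleton.1 hx]
        exact ⟨hqp, hqpa⟩
      · exact br_sub t4 (fun x hx => hx) (fun x hx => List.mem_append_right _ hx)
      · refine br_appr t5 (br_sing fun x hx => ?_)
        rw [List.mem_singleton.1 hx]
        exact ⟨t7, fun h => hqw h.symm⟩
    obtain ⟨b, hb⟩ : ∃ b, T.head? = some b := by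
      obtain ⟨b, T', hT'⟩ := List.exists_cons_of_ne_nil hT
      exact ⟨b, by rw [hT']; rfl⟩
    obtain ⟨c, hc⟩ : ∃ c, T.getLast? = some c := ⟨_, List.getLast?_eq_getLast_of_ne_nil hT⟩
    have hb' : b ∈ T := List.mem_of_head? hb
    have hc' : c ∈ T := List.mem_of_getLast? hc
    have hQP : ∀ x ∈ Q1 ++ [q], x ∈ P := by
      intro x hx
      rw [hPQ]
      simp only [List.mem_append, List.mem_cons, List.not_mem_nil, or_false] at hx ⊢
      tauto
    have hpP2 : ∀ x ∈ p :: P2, x ∈ P := fun x hx => by rw [hP]; exact List.mem_append_right _ hx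
    refine IH u w ((Q1 ++ [q]) ++ a :: (p :: P2)) R T (by rw [hYT]; simp)
      ⟨S.yu, S.yw, S.uw, lP', S.lR, ?_, ?_, S.yR, hT, br_ch laT.2.1,
        fun x hx => S.far x (by rw [hYT]; simp [hx]), ⟨b, hb', a, by simp, ?_⟩,
        ⟨c, hc', r, hrR, ?_⟩⟩
    · refine br_appl (br_sub S.PR hQP (fun x hx => hx)) (br_consl (br_sing fun x hx => ?_)
        (br_sub S.PR hpP2 (fun x hx => hx)))
      refine ⟨fun h => S.nR a haY (h ▸ hx), fun h => ?_⟩
      have h5 := (S.hR a haY).1 ⟨x, hx, h⟩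
      have h6 : ([a] ++ T).Nodup := by
        have h7 := S.ip.1
        rw [hYT] at h7
        exact h7
      refine br_hl_ne h6 hT (List.mem_singleton.2 rfl) ?_
      rw [hYT] at h5
      exact h5
    · refine br_appr (br_sub S.yP (fun x hx => hx) hQP) (br_consr (br_sing fun x hx => ?_)
        (br_sub S.yP (fun x hx => hx) hpP2))
      rw [List.mem_singleton.1 hx]
      exact ⟨(br_fu S haY).2.2.1, (br_fu S haY).2.2.2⟩
    · exact ((laT.2.2.2.2.1 b hb').2 hb).symm
    · exact ((laT.2.2.2.2.2 c hc').2 hc).symm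

theorem br_final (H : br_H) (hg : Girth5 G) (hW : ¬ HasW G) (hK : ¬ HasK G)
    (S : br_S G y u w P R Y)
    (IH : ∀ (u w : V) (P R Y' : List V), Y'.length < Y.length → ¬ br_D G y u w P R Y') :
    False := by
  have hno : ∀ z ∈ Y, ¬ G.Adj u z ∧ ¬ G.Adj w z := by
    by_cases h2 : 2 ≤ Y.length
    · exact br_all H hg hW hK S IH h2
    · obtain ⟨a, hYa⟩ : ∃ a, Y = [a] := List.length_eq_one_iff.1 (by
        have h3 := List.length_pos_of_ne_nil S.ne
        omega)
      intro z hz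
      have hza : z = a := by rw [hYa] at hz; exact List.mem_singleton.1 hz
      obtain ⟨p, hp, h3⟩ := (S.hP z hz).2 (by rw [hYa, hza]; rfl)
      obtain ⟨r, hr, h4⟩ := (S.hR z hz).2 (by rw [hYa, hza]; rfl)
      have hh : ¬ (z = u ∨ z = w ∨ z ∈ P ∨ z ∈ R) := by
        rintro (h | h | h | h)
        · exact (br_fu S hz).1 h.symm
        · exact (br_fu S hz).2.1 h.symm
        · exact S.nP z hz h
        · exact S.nR z hz h
      constructor
      · intro h
        exact br_three H hW S.lP S.lR S.PR S.uw (br_nuw hg S) hh (Or.inl rfl)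
          (Or.inr (Or.inr (Or.inl hp))) (Or.inr (Or.inr (Or.inr hr)))
          (fun h' => S.lP.2.2.1 (h' ▸ hp)) (fun h' => S.lR.2.2.1 (h' ▸ hr)) (S.PR p hp r hr).1
          h.symm h3 h4
      · intro h
        exact br_three H hW S.lP S.lR S.PR S.uw (br_nuw hg S) hh (Or.inr (Or.inl rfl))
          (Or.inr (Or.inr (Or.inl hp))) (Or.inr (Or.inr (Or.inr hr)))
          (fun h' => S.lP.2.2.2.1 (h' ▸ hp)) (fun h' => S.lR.2.2.2.1 (h' ▸ hr))
          (S.PR p hp r hr).1 h.symm h3 h4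
  obtain ⟨P1, p, P2, hP, hp1, hp2, hp3⟩ := br_uniq H hg hW S IH hno
  obtain ⟨R1, r, R2, hR, hr1, hr2, hr3⟩ := br_uniq H hg hW (br_sym2 S)
    (by rw [List.length_reverse]; exact IH) (fun z hz => hno z (List.mem_reverse.1 hz))
  have hr1' : ∀ z, Y.getLast? = some z → G.Adj r z :=
    fun z hz => hr1 z (by rw [List.head?_reverse]; exact hz)
  have YR1 : Anti G Y R1 := fun x hx => hr2 x (List.mem_reverse.2 hx)
  have YR2 : Anti G Y R2 := fun x hx => hr3 x (List.mem_reverse.2 hx)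
  have hpP : p ∈ P := by rw [hP]; simp
  have hrR : r ∈ R := by rw [hR]; simp
  have hP1 : ∀ x ∈ P1, x ∈ P := fun x hx => by rw [hP]; simp [hx]
  have hP2 : ∀ x ∈ P2, x ∈ P := fun x hx => by rw [hP]; simp [hx]
  have hR1 : ∀ x ∈ R1, x ∈ R := fun x hx => by rw [hR]; simp [hx]
  have hR2 : ∀ x ∈ R2, x ∈ R := fun x hx => by rw [hR]; simp [hx]
  have hpl : ∀ x ∈ [p], x ∈ P := fun x hx => by rw [List.mem_singleton.1 hx]; exact hpP
  have hrl : ∀ x ∈ [r], x ∈ R := fun x hx => by rw [List.mem_singleton.1 hx]; exact hrR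
  have idl : ∀ (L : List V), ∀ x ∈ L, x ∈ L := fun L x hx => hx
  have hlY : Link G p Y r := br_lY S hpP hrR hp1 hr1'
  have hlP : Link G u (P1 ++ p :: P2) w := by rw [← hP]; exact S.lP
  obtain ⟨t1, t2, t3, t4, t5, t6, t7⟩ := br_spl H hlP
  have hlR : Link G u (R1 ++ r :: R2) w := by rw [← hR]; exact S.lR
  obtain ⟨v1, v2, v3, v4, v5, v6, v7⟩ := br_spl H hlR
  have hyp : y ≠ p ∧ ¬ G.Adj y p := br_sing' S.yP p hpP
  have hyr : y ≠ r ∧ ¬ G.Adj y r := br_sing' S.yR r hrR
  have luw : Link G u ([] ++ y :: []) w :=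
    br_cat H (Or.inl ⟨rfl, S.yu.symm⟩) (Or.inl ⟨rfl, S.yw⟩) (br_nill _) (br_nilr _) (br_nilr _)
  have yY : Anti G [y] Y := br_sing fun x hx => ⟨(br_fu S hx).2.2.1, (br_fu S hx).2.2.2⟩
  apply hK
  refine ⟨![u, w, p, r], br_A [y] P1 R1 P2.reverse R2.reverse Y,
    br_mkK H u w p r [y] P1 R1 P2.reverse R2.reverse Y (Or.inr ⟨luw, br_nuw hg S, S.uw⟩)
      t1 v1 (br_srev H t2) (br_srev H v2) (Or.inr ⟨hlY, (S.PR p hpP r hrR).2,
        (S.PR p hpP r hrR).1⟩) ?_ ?_ ?_ t5 ?_ v5 ?_ (br_revr t4) ?_ (br_revr v4) ?_ ?_ ?_,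
    br_nop4 _ _ _ _ _ _ (by simp) S.ne ?_ ?_⟩
  · simp only [List.pairwise_cons, List.mem_cons, List.not_mem_nil, or_false, forall_eq_or_imp,
        forall_eq, List.Pairwise.nil, and_true, IsEmpty.forall_iff, implies_true]
    exact ⟨⟨br_sub S.yP (idl _) hP1, br_sub S.yR (idl _) hR1, br_revr (br_sub S.yP (idl _) hP2),
      br_revr (br_sub S.yR (idl _) hR2), yY⟩,
      ⟨br_sub S.PR hP1 hR1, br_revr t3, br_revr (br_sub S.PR hP1 hR2), br_symm hp2⟩,
      ⟨br_revr (br_symm (br_sub S.PR hP2 hR1)), br_revr v3, br_symm YR1⟩,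
      ⟨br_revl (br_revr (br_sub S.PR hP2 hR2)), br_revl (br_symm hp3)⟩, br_revl (br_symm YR2)⟩
  · exact br_symm (br_sub S.yP (idl _) hpl)
  · exact br_symm (br_sub S.yR (idl _) hrl)
  · exact br_symm (br_sub S.PR hP1 hrl)
  · exact br_sub S.PR hpl hR1
  · exact br_revr (br_symm (br_sub S.PR hP2 hrl))
  · exact br_revr (br_sub S.PR hpl hR2)
  · exact br_sing fun x hx => ⟨(br_fu S hx).1, (hno x hx).1⟩
  · exact br_sing fun x hx => ⟨(br_fu S hx).2.1, (hno x hx).2⟩
  · rintro ⟨h1, h2⟩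
    rw [List.reverse_eq_nil_iff] at h2
    exact hg.2 u p w y S.uw hyp.1.symm (br_sadj t1 h1) (br_sadj t2 h2) S.yw.symm S.yu
  · rintro ⟨h1, h2⟩
    rw [List.reverse_eq_nil_iff] at h2
    exact hg.2 u r w y S.uw hyr.1.symm (br_sadj v1 h1) (br_sadj v2 h2) S.yw.symm S.yu

theorem br_main (H : br_H) (hg : Girth5 G) (hW : ¬ HasW G) (hK : ¬ HasK G) :
    ∀ (n : ℕ) (u w : V) (P R Y : List V), Y.length = n → ¬ br_D G y u w P R Y := by
  intro n
  induction n using Nat.strong_induction_on with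
  | _ n ih =>
    intro u w P R Y hn D
    obtain ⟨Y', h1, S⟩ := br_norm H D
    exact br_final H hg hW hK S
      (fun u w P R Y'' h => ih Y''.length (by omega) u w P R Y'' rfl)

end data

end

theorem st_BR (hHUB : ST_HUB) (hCY2 : ST_CY2) (hCAT : ST_CAT) (hCNS : ST_CNS) (hSNC : ST_SNC)
    (hSPL : ST_SPL) (hREV : ST_REV) (hDST : ST_DST) : ST_BR := by
  intro V G u w y P R hg hW hK yu yw uw lP lR PR yP yR hcon
  have H : br_H := ⟨hHUB, hCY2, hCAT, hCNS, hSNC, hSPL, hREV, hDST⟩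
  obtain ⟨Y, S, -⟩ := br_mkS H (Far G y) yu yw uw lP lR PR yP yR hcon
    (fun x hx => ⟨(br_sing' yP x hx).1.symm, (br_sing' yP x hx).2⟩)
    (fun x hx => ⟨(br_sing' yR x hx).1.symm, (br_sing' yR x hx).2⟩) (fun x hx => hx)
  exact br_final H hg hW hK S (fun u w P R Y' _ => br_main H hg hW hK _ u w P R Y' rfl)

end Pool.Agent.Helper64.HG
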